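import Pool.Agent.N24.RW.Stm
import Pool.Agent.N514.TH.Dens

/-!
Polynomials of degree one in the first variable along random orbits: one set of times of density zero for
all pairs of coprime polynomials (helper763, engine of helper24, densities by helper514).
-/

set_option autoImplicit false

namespace Pool.Agent.N763.RO

open Filter Topology MeasureTheory
open Pool.Agent.R424.MP (ev CoprimeTo)
open Pool.Agent.N24.RW
open Pool.Agent.N514.TH (Om Ok dens_Om mem_Om)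

variable {s : ℕ}

/-- no prime above `D` divides `h` exactly and does not divide `G` -/
def Bad (h G : Polynomial (MvPolynomial (Fin s) ℤ)) (D : ℕ) : Set (Fin (s + 1) → ℤ) :=
  {z | ¬ ∃ p : ℕ, p.Prime ∧ D < p ∧ Ok h G p z}

theorem bad_null (hC : S_CRIT) (hD : S_CLO) (h G : Polynomial (MvPolynomial (Fin s) ℤ))
    (hdeg : h.natDegree = 1) (hcop : CoprimeTo h G) (D : ℕ) : ProNull (Bad h G D) := by
  obtain ⟨p₀, hp₀⟩ := dens_Om h G hdeg hcop
  have h1 := hC (Fin (s + 1)) (fun p => p ^ 2) (fun p hp => Nat.one_le_pow _ _ hp.pos)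
    (fun p p' hp hp' hne => Nat.Coprime.pow 2 2 ((Nat.coprime_primes hp hp').2 hne))
    (fun p => Om h G p) (max D p₀) (fun p => 1 / 4 * (1 / (p : ℝ))) (fun p => by positivity)
    (by
      intro hsum
      apply not_summable_one_div_on_primes
      have h2 := hsum.mul_left 4
      refine h2.congr fun p => ?_
      by_cases hp : p.Prime
      · simp [Set.indicator, hp]
      · simp [Set.indicator, hp])
    (fun p hp hlt => by
      have h2 := hp₀ p hp (lt_of_le_of_lt (le_max_right _ _) hlt)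
      unfold Pool.Agent.N666.TM.dens at h2
      have hpR : (0 : ℝ) < p := by exact_mod_cast hp.pos
      have h3 : (0 : ℝ) < ((p ^ 2 : ℕ) : ℝ) ^ Fintype.card (Fin (s + 1)) := by
        have h4 : (0 : ℝ) < ((p ^ 2 : ℕ) : ℝ) := by exact_mod_cast pow_pos hp.pos 2
        exact pow_pos h4 _
      rwa [le_div_iff₀ h3] at h2)
  refine (hD (Fin (s + 1))).1 _ _ ?_ h1
  intro z hz p hp hlt hin
  exact hz ⟨p, hp, lt_of_le_of_lt (le_max_left _ _) hlt,
    (mem_Om h G p hp.one_lt.le z).1 hin⟩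

/-- density zero -/
def Zero (E : Set ℕ) : Prop :=
  Tendsto (fun N : ℕ => (({n : ℕ | n < N ∧ n ∈ E}.ncard : ℕ) : ℝ) / (N : ℝ)) atTop (𝓝 0)

theorem fin_lt (N : ℕ) (E : Set ℕ) : {n : ℕ | n < N ∧ n ∈ E}.Finite :=
  (Set.finite_lt_nat N).subset fun _ h => h.1

theorem count_mono {E E' : Set ℕ} (N : ℕ) (h : ∀ n < N, n ∈ E → n ∈ E') :
    (({n : ℕ | n < N ∧ n ∈ E}.ncard : ℕ) : ℝ) / (N : ℝ) ≤
      (({n : ℕ | n < N ∧ n ∈ E'}.ncard : ℕ) : ℝ) / (N : ℝ) := by
  refine div_le_div_of_nonneg_right ?_ (by positivity)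
  have h1 : {n : ℕ | n < N ∧ n ∈ E} ⊆ {n : ℕ | n < N ∧ n ∈ E'} := fun n hn =>
    ⟨hn.1, h n hn.1 hn.2⟩
  exact_mod_cast Set.ncard_le_ncard h1 (fin_lt N E')

theorem Zero.mono {E E' : Set ℕ} (h : E ⊆ E') (hE : Zero E') : Zero E :=
  squeeze_zero (fun N => by positivity) (fun N => count_mono N fun _ _ hn => h hn) hE

theorem Zero.union {E E' : Set ℕ} (h : Zero E) (h' : Zero E') : Zero (E ∪ E') := by
  have h2 := h.add h'
  rw [add_zero] at h2
  refine squeeze_zero (fun N => by positivity) (fun N => ?_) h2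
  rw [← add_div]
  gcongr
  have h3 : {n : ℕ | n < N ∧ n ∈ E ∪ E'} = {n : ℕ | n < N ∧ n ∈ E} ∪ {n : ℕ | n < N ∧ n ∈ E'} := by
    ext n
    simp only [Set.mem_ofPred_eq, Set.mem_union]
    tauto
  rw [h3]
  exact_mod_cast Set.ncard_union_le _ _

theorem Zero.empty : Zero ∅ := by
  refine tendsto_const_nhds.congr fun N => ?_
  have h : {n : ℕ | n < N ∧ n ∈ (∅ : Set ℕ)} = ∅ := by
    ext n
    simp
  rw [h]
  simp

theorem Zero.iUnion_le {E : ℕ → Set ℕ} (h : ∀ k, Zero (E k)) (k : ℕ) :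
    Zero {t | ∃ j ≤ k, t ∈ E j} := by
  induction k with
  | zero =>
    refine Zero.mono ?_ (h 0)
    rintro t ⟨j, hj, ht⟩
    obtain rfl : j = 0 := by omega
    exact ht
  | succ k ih =>
    refine Zero.mono ?_ (ih.union (h (k + 1)))
    rintro t ⟨j, hj, ht⟩
    rcases Nat.lt_or_ge j (k + 1) with hlt | hge
    · exact Or.inl ⟨j, by omega, ht⟩
    · obtain rfl : j = k + 1 := by omega
      exact Or.inr ht

/-- One set of density zero which contains each of countably many sets of density zero, up to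
finitely many elements. -/
theorem diag0 {E : ℕ → Set ℕ} (hmono : Monotone E) (h : ∀ k, Zero (E k)) :
    ∃ E' : Set ℕ, Zero E' ∧ ∀ k, (E k \ E').Finite := by
  classical
  have hg : ∀ k : ℕ, ∃ g : ℕ, ∀ N : ℕ, g ≤ N →
      (({n : ℕ | n < N ∧ n ∈ E k}.ncard : ℕ) : ℝ) / (N : ℝ) < 1 / ((k : ℝ) + 1) := by
    intro k
    have h1 := (h k).eventually (gt_mem_nhds (show (0 : ℝ) < 1 / ((k : ℝ) + 1) by positivity))
    exact eventually_atTop.1 h1
  choose g hg using hg
  let κ : ℕ → ℕ := fun t => Nat.findGreatest (fun k => g k ≤ t) t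
  have hκmono : Monotone κ := fun t t' htt => Nat.findGreatest_mono (fun k hk => le_trans hk htt) htt
  have hκge : ∀ k t, k ≤ t → g k ≤ t → k ≤ κ t := fun k t h1 h2 => Nat.le_findGreatest h1 h2
  have hκsp : ∀ t, κ t ≠ 0 → g (κ t) ≤ t := fun t h0 =>
    Nat.findGreatest_of_ne_zero (P := fun k => g k ≤ t) (n := t) rfl h0
  refine ⟨{t | t ∈ E (κ t)}, ?_, ?_⟩
  · refine Metric.tendsto_atTop.2 fun ε hε => ?_
    obtain ⟨k₀, hk₀⟩ := exists_nat_one_div_lt hε
    refine ⟨k₀ + 1 + g (k₀ + 1), fun N hN => ?_⟩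
    have hk : k₀ + 1 ≤ κ N := hκge _ _ (by omega) (by omega)
    have h1 := hg (κ N) N (hκsp N (by omega))
    have h2 : (({n : ℕ | n < N ∧ n ∈ {t | t ∈ E (κ t)}}.ncard : ℕ) : ℝ) / (N : ℝ) ≤
        (({n : ℕ | n < N ∧ n ∈ E (κ N)}.ncard : ℕ) : ℝ) / (N : ℝ) :=
      count_mono N fun n hn hn' => hmono (hκmono (le_of_lt hn)) hn'
    have h3 : 1 / (((κ N : ℕ) : ℝ) + 1) ≤ 1 / ((k₀ : ℝ) + 1) := by
      gcongr
      exact_mod_cast (by omega : k₀ ≤ κ N)
    rw [Real.dist_eq, sub_zero, abs_of_nonneg (by positivity)]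
    linarith
  · intro k
    refine (Set.finite_lt_nat (k + g k)).subset ?_
    rintro t ⟨ht, ht'⟩
    by_contra hcon
    rw [Set.mem_ofPred_eq, not_lt] at hcon
    exact ht' (hmono (hκge k t (by omega) (by omega)) ht)

/-- the data of the conditions for vectors with coordinates in `ι` -/
structure Dat (ι : Type) where
  s : ℕ
  j : Fin (s + 1) ↪ ι
  h : Polynomial (MvPolynomial (Fin s) ℤ)
  G : Polynomial (MvPolynomial (Fin s) ℤ)
  deg : h.natDegree = 1
  cop : CoprimeTo h G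

theorem countable_mv (s : ℕ) : Countable (MvPolynomial (Fin s) ℤ) := by
  rw [← Cardinal.mk_le_aleph0_iff]
  refine MvPolynomial.cardinalMk_le_max.trans ?_
  simp

theorem countable_poly (s : ℕ) : Countable (Polynomial (MvPolynomial (Fin s) ℤ)) := by
  have := countable_mv s
  rw [← Cardinal.mk_le_aleph0_iff]
  refine Polynomial.cardinalMk_le_max.trans ?_
  simp

instance (ι : Type) [Finite ι] : Countable (Dat ι) := by
  have := countable_poly
  have h0 : ∀ s : ℕ, Countable (Fin (s + 1) ↪ ι) := fun s =>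
    (DFunLike.coe_injective (F := Fin (s + 1) ↪ ι)).countable
  have h1 : Function.Injective (fun d : Dat ι => (⟨d.s, d.j, d.h, d.G⟩ :
      Σ s : ℕ, (Fin (s + 1) ↪ ι) × Polynomial (MvPolynomial (Fin s) ℤ) ×
        Polynomial (MvPolynomial (Fin s) ℤ))) := by
    rintro ⟨s, j, h, G, h1, h2⟩ ⟨s', j', h', G', h1', h2'⟩ heq
    simp only [Sigma.mk.injEq] at heq
    obtain ⟨rfl, h3⟩ := heq
    have h4 := eq_of_heq h3
    simp only [Prod.mk.injEq] at h4
    obtain ⟨rfl, rfl, rfl⟩ := h4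
    rfl
  exact h1.countable

/-- **One set of times of density zero for all pairs of coprime polynomials.** -/
theorem engine (hC : S_CRIT) (hD : S_CLO) (hM : S_MAIN) {ι : Type} [Fintype ι] [DecidableEq ι]
    (hι : 2 ≤ Fintype.card ι) (W : Walk ι) (v : ι → ℤ) (hv : v ≠ 0) :
    ∀ᵐ w ∂(words W.m), ∃ E : Set ℕ, Zero E ∧ ∀ (d : Dat ι) (D : ℕ),
      {n : ℕ | n ∉ E ∧ (fun i => orb W v w n (d.j i)) ∈ Bad d.h d.G D}.Finite := by
  classical
  have h1 : ∀ (d : Dat ι) (D : ℕ), AlmostNever W v {c | (fun i => c (d.j i)) ∈ Bad d.h d.G D} := by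
    intro d D
    exact hM ι hι W v hv _ ((hD (Fin (d.s + 1))).2.2.2.2 ι d.j d.j.injective _
      (bad_null hC hD d.h d.G d.deg d.cop D))
  have h2 : ∀ᵐ w ∂(words W.m), ∀ (d : Dat ι) (D : ℕ),
      Zero {n | (fun i => orb W v w n (d.j i)) ∈ Bad d.h d.G D} := by
    rw [ae_all_iff]
    intro d
    rw [ae_all_iff]
    intro D
    exact h1 d D
  filter_upwards [h2] with w hw
  have hne : Nonempty (Dat ι) := by
    obtain ⟨i⟩ : Nonempty ι := Fintype.card_pos_iff.1 (by omega)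
    exact ⟨{ s := 0, j := ⟨fun _ => i, fun a b _ => Fin.ext (by omega)⟩, h := Polynomial.X, G := 1,
             deg := Polynomial.natDegree_X, cop := ⟨0, 1, 1, one_ne_zero, by simp⟩ }⟩
  obtain ⟨f, hf⟩ := exists_surjective_nat (Dat ι)
  have hanti : ∀ (d : Dat ι) (D D' : ℕ), D ≤ D' → Bad d.h d.G D ⊆ Bad d.h d.G D' := by
    rintro d D D' hDD z hz ⟨p, hp, hlt, hok⟩
    exact hz ⟨p, hp, lt_of_le_of_lt hDD hlt, hok⟩
  let F : ℕ → Set ℕ := fun k =>
    {n | ∃ j ≤ k, n ∈ {n | (fun i => orb W v w n ((f j).j i)) ∈ Bad (f j).h (f j).G k}}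
  have hmono : Monotone F := by
    rintro k k' hkk n ⟨j, hj, hn⟩
    exact ⟨j, by omega, hanti _ _ _ hkk hn⟩
  obtain ⟨E, hE, hfin⟩ := diag0 hmono fun k => Zero.iUnion_le
    (E := fun j => {n | (fun i => orb W v w n ((f j).j i)) ∈ Bad (f j).h (f j).G k})
    (fun j => hw (f j) k) k
  refine ⟨E, hE, fun d D => ?_⟩
  obtain ⟨j, rfl⟩ := hf d
  refine (hfin (max j D)).subset ?_
  rintro n ⟨hn, hn'⟩
  exact ⟨⟨j, le_max_left _ _, hanti _ _ _ (le_max_right _ _) hn'⟩, hn⟩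

end Pool.Agent.N763.RO
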