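import Pool.Agent.R424.MP.Torus
import Pool.Agent.N763.RO.Bad

/-!
The local analysis of `Pool.Agent.R424.MP.manyT` as a criterion for one member of the family
(helper763, from the starting library).
-/

set_option autoImplicit false

namespace Pool.Agent.N763.RO

open MvPolynomial Pool.Agent.R424.TG Pool.Agent.R424.MP Pool.Agent.N24.RW MeasureTheory
open Pool.Agent.Y152.RP.FamM (NoAtypical)

variable {s : ℕ}

/-- the condition on the parameter: `h l` has a prime factor above `P₀` which does not divide `G l` -/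
def Hit {M : ℕ} (h G : Fin M → Polynomial (MvPolynomial (Fin s) ℤ)) (P₀ : ℕ)
    (z : ℤ × (Fin s → ℤ)) : Prop :=
  ∀ l, ev z.1 z.2 (h l) ≠ 0 ∧ ∃ p : ℕ, p.Prime ∧ (p : ℤ) ∣ ev z.1 z.2 (h l) ∧
    P₀ < p ∧ ¬ (p : ℤ) ∣ ev z.1 z.2 (G l)

theorem localGen {κ : Type} [Finite κ] {n k N m M : ℕ}
    (supp : κ → Finset (((Fin n ⊕ Fin k) ⊕ Fin N) →₀ ℕ))
    (c : κ → (((Fin n ⊕ Fin k) ⊕ Fin N) →₀ ℕ) → Polynomial (MvPolynomial (Fin s) ℤ))
    (h : Fin M → Polynomial (MvPolynomial (Fin s) ℤ))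
    (e : Fin M → κ → (((Fin n ⊕ Fin k) ⊕ Fin N) →₀ ℕ) → ℕ)
    (he : ∀ l q, ∀ β ∈ supp q, HasOrd (h l) (c q β) (e l q β)) (hgen : GenericOrders m supp e) :
    ∃ G : Fin M → Polynomial (MvPolynomial (Fin s) ℤ), (∀ l, CoprimeTo (h l) (G l)) ∧
      ∀ (K : Subfield ℂ) [Countable K] (Γ : Finset ℂ), (∀ γ ∈ Γ, IsAlgebraic ℚ γ) →
        (∀ γ ∈ Γ, γ ∈ K) → ∃ P₀ : ℕ, ∀ z : ℤ × (Fin s → ℤ), Hit h G P₀ z →
          NoAtypical (algebraMap (Algebra.adjoin ℤ (Γ : Set ℂ)) ℂ) K m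
            (solutions supp (fun q β => ((ev z.1 z.2 (c q β) : ℤ) : ℂ)) :
              Set (Fin n ⊕ Fin k → ℂ)) := by
  classical
  have := Fintype.ofFinite κ
  let ι := Σ q : κ, {β // β ∈ supp q}
  have hg : ∀ (l : Fin M) (x : ι), ∃ g, c x.1 x.2 = h l ^ e l x.1 x.2 * g ∧ CoprimeTo (h l) g :=
    fun l x => he l x.1 _ x.2.2
  choose g hg1 hg2 using hg
  let G : Fin M → Polynomial (MvPolynomial (Fin s) ℤ) := fun l => ∏ x : ι, g l x
  refine ⟨G, fun l => CoprimeTo.prod _ _ (hg2 l), fun K _ Γ hΓ hΓK => ?_⟩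
  obtain ⟨D₀, hD₀, halg⟩ := Pool.Agent.W466.ZP.alg_mem (fun z : Γ => (z : ℂ)) fun z => hΓ z z.2
  refine ⟨D₀, fun z hgood => ?_⟩
  have hK : ∀ a : Algebra.adjoin ℤ (Γ : Set ℂ),
      algebraMap (Algebra.adjoin ℤ (Γ : Set ℂ)) ℂ a ∈ K := by
    intro a
    have hle : Algebra.adjoin ℤ (Γ : Set ℂ) ≤ subalgebraOfSubring K.toSubring :=
      Algebra.adjoin_le fun γ hγ => hΓK γ hγ
    exact hle a.2
  refine coreB (algebraMap (Algebra.adjoin ℤ (Γ : Set ℂ)) ℂ) K hK supp _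
    fun r cls d L hd hr => ?_
  obtain ⟨l, hl⟩ := hgen r cls d L hd hr
  refine ⟨e l, hl, fun ρ x hx => ?_⟩
  obtain ⟨h0, p, hp, hph, hpP, hpG⟩ := hgood l
  have hxQ : AlgebraicIndependent ℚ x := hx.restrictScalars (algebraMap ℚ K).injective
  obtain ⟨V, hV, hVx⟩ := place x hxQ hp
  have hp1 : V.valuation (p : ℂ) < 1 := by rwa [ValuationSubring.mem_nonunits_iff] at hV
  have hint : ∀ w : ℤ, V.valuation (w : ℂ) ≤ 1 := fun w => by
    rw [ValuationSubring.valuation_le_one_iff]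
    exact intCast_mem V w
  refine ⟨V, V.valuation ((ev z.1 z.2 (h l) : ℤ) : ℂ), ?_, ?_, fun q β hβ => ?_, fun a => ?_, hVx⟩
  · rw [Valuation.ne_zero_iff]
    exact_mod_cast h0
  · obtain ⟨w, hw⟩ := hph
    rw [hw]
    push_cast
    rw [map_mul]
    exact (mul_le_of_le_one_right' (hint w)).trans_lt hp1
  · have h1 := hg1 l ⟨q, β, hβ⟩
    have h2 : ¬ (p : ℤ) ∣ ev z.1 z.2 (g l ⟨q, β, hβ⟩) := by
      intro h3
      apply hpG
      change (p : ℤ) ∣ ev z.1 z.2 (∏ x : ι, g l x)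
      rw [map_prod]
      exact h3.trans (Finset.dvd_prod_of_mem _ (Finset.mem_univ (⟨q, β, hβ⟩ : ι)))
    have h3 : ev z.1 z.2 (c q β) = ev z.1 z.2 (h l) ^ e l q β * ev z.1 z.2 (g l ⟨q, β, hβ⟩) := by
      rw [h1, map_mul, map_pow]
    rw [h3]
    push_cast
    rw [map_mul, map_pow, Pool.Agent.W466.ZP.int_unit V hp hV _ h2, mul_one]
  · rw [ValuationSubring.valuation_le_one_iff]
    have hpD : ¬ p ∣ D₀ := fun h1 => by
      have := Nat.le_of_dvd hD₀ h1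
      omega
    have hle : Algebra.adjoin ℤ (Γ : Set ℂ) ≤ subalgebraOfSubring V.toSubring :=
      Algebra.adjoin_le fun γ hγ => halg p hp hpD V hV ⟨γ, hγ⟩
    exact hle a.2

theorem localT {k N : ℕ} {κ : Type} [Finite κ] {m M : ℕ}
    (supp : κ → Finset ((Fin k ⊕ Fin N) →₀ ℕ))
    (c : κ → ((Fin k ⊕ Fin N) →₀ ℕ) → Polynomial (MvPolynomial (Fin s) ℤ))
    (h : Fin M → Polynomial (MvPolynomial (Fin s) ℤ))
    (e : Fin M → κ → ((Fin k ⊕ Fin N) →₀ ℕ) → ℕ)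
    (he : ∀ l q, ∀ β ∈ supp q, HasOrd (h l) (c q β) (e l q β)) (hgen : GenericT m supp e) :
    ∃ G : Fin M → Polynomial (MvPolynomial (Fin s) ℤ), (∀ l, CoprimeTo (h l) (G l)) ∧
      ∀ (K : Subfield ℂ) [Countable K] (Γ : Finset ℂ), (∀ γ ∈ Γ, IsAlgebraic ℚ γ) →
        (∀ γ ∈ Γ, γ ∈ K) → ∃ P₀ : ℕ, ∀ z : ℤ × (Fin s → ℤ), Hit h G P₀ z →
          NoAtypicalT (algebraMap (Algebra.adjoin ℤ (Γ : Set ℂ)) ℂ) K m
            (solT supp (fun q β => ((ev z.1 z.2 (c q β) : ℤ) : ℂ))) := by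
  classical
  obtain ⟨G, hG, hloc⟩ := localGen (n := 0) (m := m) (fun q => (supp q).map (renE k N).toEmbedding)
    (fun q β => c q ((renE k N).symm β)) h (fun l q β => e l q ((renE k N).symm β))
    (fun l q β hβ => by
      obtain ⟨β', hβ', rfl⟩ := Finset.mem_map.1 hβ
      simp only [Equiv.coe_toEmbedding, Equiv.symm_apply_apply]
      exact he l q β' hβ') (fun r cls d L _ hr => by
      obtain ⟨l, hl⟩ := hgen L (by omega)
      refine ⟨l, fun w hw hc => ?_⟩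
      obtain ⟨-, -, u, hu, hwu⟩ := hc
      refine hl (w ∘ (ren k N).symm) (fun q => trop_ren _ _ _ (hw q)) ⟨u, hu, fun j => ?_⟩
      exact hwu j)
  refine ⟨G, hG, fun K _ Γ hΓ hΓK => ?_⟩
  obtain ⟨P₀, hP₀⟩ := hloc K Γ hΓ hΓK
  refine ⟨P₀, fun z hz => ?_⟩
  refine noAtypicalT_of (fun x hx => hx.1) (hP₀ z hz) ?_
  rintro x ⟨hx0, y, hy⟩
  refine ⟨fun j => hx0 j, y, fun q => ?_⟩
  rw [Finset.sum_map]
  rw [← hy q]
  refine Finset.sum_congr rfl fun β _ => ?_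
  simp only [Equiv.coe_toEmbedding, Equiv.symm_apply_apply]
  congr 1
  rw [← Equiv.prod_comp (ren k N) (fun i => (Sum.elim x y : Fin k ⊕ Fin N → ℂ) i ^ β i)]
  refine Finset.prod_congr rfl fun i _ => ?_
  rw [ren_elim, renE_apply]

theorem hit_of {M : ℕ} (h G : Fin M → Polynomial (MvPolynomial (Fin s) ℤ)) (P₀ : ℕ)
    (x : Fin (s + 1) → ℤ) (hx : ∀ l, x ∉ Bad (h l) (G l) P₀) :
    Hit h G P₀ (x 0, fun i => x i.succ) := by
  intro l
  have h1 := hx l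
  unfold Bad at h1
  rw [Set.mem_ofPred_eq, not_not] at h1
  obtain ⟨p, hp, hlt, h2, h3, h4⟩ := h1
  refine ⟨fun h0 => h3 ?_, p, hp, h2, hlt, h4⟩
  change ev (x 0) (fun i => x i.succ) (h l) = 0 at h0
  rw [h0]
  exact dvd_zero _

theorem proNull_iUnion (hD : S_CLO) {ι : Type} [Fintype ι] {M : ℕ} (B : Fin M → Set (ι → ℤ))
    (hB : ∀ l, ProNull (B l)) : ProNull {x | ∃ l, x ∈ B l} := by
  induction M with
  | zero =>
    refine (hD ι).1 _ {x | MvPolynomial.eval x (1 : MvPolynomial ι ℤ) = 0} ?_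
      ((hD ι).2.2.2.1 1 one_ne_zero)
    rintro x ⟨l, -⟩
    exact l.elim0
  | succ M ih =>
    refine (hD ι).1 _ _ ?_ ((hD ι).2.1 _ _ (hB 0) (ih (fun l => B l.succ) fun l => hB l.succ))
    rintro x ⟨l, hl⟩
    refine Fin.cases (fun hl => Or.inl hl) (fun l hl => Or.inr ⟨l, hl⟩) l hl

/-- the exceptional parameters are a pronull set -/
theorem torus_null (hC : S_CRIT) (hD : S_CLO) {k N : ℕ} {κ : Type} [Finite κ] {m M : ℕ}
    (supp : κ → Finset ((Fin k ⊕ Fin N) →₀ ℕ))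
    (c : κ → ((Fin k ⊕ Fin N) →₀ ℕ) → Polynomial (MvPolynomial (Fin s) ℤ))
    (h : Fin M → Polynomial (MvPolynomial (Fin s) ℤ)) (hdeg : ∀ l, (h l).natDegree = 1)
    (e : Fin M → κ → ((Fin k ⊕ Fin N) →₀ ℕ) → ℕ)
    (he : ∀ l q, ∀ β ∈ supp q, HasOrd (h l) (c q β) (e l q β)) (hgen : GenericT m supp e)
    (K : Subfield ℂ) [Countable K] (Γ : Finset ℂ) (hΓ : ∀ γ ∈ Γ, IsAlgebraic ℚ γ)
    (hΓK : ∀ γ ∈ Γ, γ ∈ K) :
    ProNull {x : Fin (s + 1) → ℤ | ¬ NoAtypicalT (algebraMap (Algebra.adjoin ℤ (Γ : Set ℂ)) ℂ) K m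
      (solT supp (fun q β => ((ev (x 0) (fun i => x i.succ) (c q β) : ℤ) : ℂ)))} := by
  obtain ⟨G, hG, hloc⟩ := localT supp c h e he hgen
  obtain ⟨P₀, hP₀⟩ := hloc K Γ hΓ hΓK
  refine (hD (Fin (s + 1))).1 _ _ ?_ (proNull_iUnion hD (fun l => Bad (h l) (G l) P₀) fun l =>
    bad_null hC hD (h l) (G l) (hdeg l) (hG l) P₀)
  intro x hx
  by_contra hcon
  rw [Set.mem_ofPred_eq] at hcon
  have hcon' : ∀ l, x ∉ Bad (h l) (G l) P₀ := fun l hl => hcon ⟨l, hl⟩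
  have h2 := hP₀ (x 0, fun i => x i.succ) (hit_of h G P₀ x hcon')
  exact hx h2

/-- **Random orbits**: one set of times of density zero for all families. -/
theorem torus_orbits (hC : S_CRIT) (hD : S_CLO) (hM : S_MAIN) {ι : Type} [Fintype ι]
    [DecidableEq ι] (hι : 2 ≤ Fintype.card ι) (W : Walk ι) (v : ι → ℤ) (hv : v ≠ 0) :
    ∀ᵐ w ∂(words W.m), ∃ E : Set ℕ, Zero E ∧
      ∀ (s k N m M : ℕ) (j : Fin (s + 1) → ι), Function.Injective j →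
      ∀ (κ : Type) [Finite κ] (supp : κ → Finset ((Fin k ⊕ Fin N) →₀ ℕ))
        (c : κ → ((Fin k ⊕ Fin N) →₀ ℕ) → Polynomial (MvPolynomial (Fin s) ℤ))
        (h : Fin M → Polynomial (MvPolynomial (Fin s) ℤ)), (∀ l, (h l).natDegree = 1) →
      ∀ (e : Fin M → κ → ((Fin k ⊕ Fin N) →₀ ℕ) → ℕ),
        (∀ l q, ∀ β ∈ supp q, HasOrd (h l) (c q β) (e l q β)) → GenericT m supp e →
      ∀ (K : Subfield ℂ) [Countable K] (Γ : Finset ℂ), (∀ γ ∈ Γ, IsAlgebraic ℚ γ) →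
        (∀ γ ∈ Γ, γ ∈ K) →
        {n : ℕ | n ∉ E ∧ ¬ NoAtypicalT (algebraMap (Algebra.adjoin ℤ (Γ : Set ℂ)) ℂ) K m
          (solT supp (fun q β => ((ev (orb W v w n (j 0)) (fun i => orb W v w n (j i.succ))
            (c q β) : ℤ) : ℂ)))}.Finite := by
  filter_upwards [engine hC hD hM hι W v hv] with w hw
  obtain ⟨E, hE, hfin⟩ := hw
  refine ⟨E, hE, ?_⟩
  intro s k N m M j hj κ _ supp c h hdeg e he hgen K _ Γ hΓ hΓK
  obtain ⟨G, hG, hloc⟩ := localT supp c h e he hgen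
  obtain ⟨P₀, hP₀⟩ := hloc K Γ hΓ hΓK
  have h1 : (⋃ l : Fin M, {n : ℕ | n ∉ E ∧ (fun i => orb W v w n (j i)) ∈
      Bad (h l) (G l) P₀}).Finite := by
    refine Set.finite_iUnion fun l => ?_
    exact hfin { s := s, j := ⟨j, hj⟩, h := h l, G := G l, deg := hdeg l, cop := hG l } P₀
  refine h1.subset ?_
  rintro n ⟨hn, hbad⟩
  by_contra hcon
  have hcon' : ∀ l, (fun i => orb W v w n (j i)) ∉ Bad (h l) (G l) P₀ := fun l hl =>
    hcon (Set.mem_iUnion.2 ⟨l, hn, hl⟩)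
  have h2 := hP₀ (orb W v w n (j 0), fun i => orb W v w n (j i.succ))
    (hit_of h G P₀ (fun i => orb W v w n (j i)) hcon')
  exact hbad h2

end Pool.Agent.N763.RO
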